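import Mathlib
import Pool.Agent.MP_9d63a4_co.Asymp

namespace Pool.Agent.Results.MP_9d63a4_co.Solved

open Pool.Agent.MP_9d63a4_co PowerSeries

/-- Parking functions on recursive trees.
(1) The generating function `G = ∑ R n m u^m v^(n-m) z^n / (n! m!)` equals
`v E - log J₀(2 √(u E))`, where `E(z)` is the compositional inverse of
`Ψ(y) = ∫₀^y exp (-v t) J₀(2 √(u t)) dt`.
(2) `R n n ∼ n!^2 / (2 n ρ^n)` with `ρ = (j / 2) J₁(j)`, `j` the least positive zero of `J₀`. -/
theorem result :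
    (∀ (K : Type) [CommRing K] [Algebra ℚ K] (u v : K), ∃ E : PowerSeries K,
      (∀ F : PowerSeries K,
        (constantCoeff F = 0 ∧ (Psi u v).subst F = (X : PowerSeries K)) ↔ F = E) ∧
      G u v = C v * E - logOf ((rescale u (bessel K)).subst E)) ∧
    ∃ j : ℝ, IsLeast {x : ℝ | 0 < x ∧ J0 x = 0} j ∧
      Asymptotics.IsEquivalent Filter.atTop (fun n : ℕ => (R n n : ℝ))
        (fun n : ℕ => (n.factorial : ℝ) ^ 2 / (2 * n * (j / 2 * J1 j) ^ n)) :=
  ⟨fun _ _ _ u v => gf_closed u v, diag_asymptotics⟩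

end Pool.Agent.Results.MP_9d63a4_co.Solved
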